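import Pool.Agent.Y723.SJ.Def

/-!
# The Bloch–Kato Selmer group `H¹_f(ℚ, V_p J)` of the Jacobian of `y² = ∏ (x - a i)`

`J = Jac a` is the Jacobian of the hyperelliptic curve `y² = ∏ (x - a i)` over `ℚ`
(`Pool.Agent.Y723.SJ.Def`). `V_p J = T_p J ⊗ ℚ_p` is described by sequences of points: the element `x`
corresponds to the sequence of the classes of `p⁻ⁿ x` in `V_p J / T_p J = J[p ^ ∞]`. The local
conditions are given by the images of the local Kummer maps.
-/

set_option autoImplicit false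

namespace Q274.BJ

open Pool.Agent.Y723.SJ

variable {g : ℕ} (a : Fin (2 * g + 1) → ℤ)

/-- The rational Tate module `V_p(J) = T_p(J) ⊗ ℚ_p`: the sequences `x₀, x₁, …` of points of `J` over
the algebraic numbers, of `p`-power order, with `p xₙ₊₁ = xₙ` (`xₙ` is the class of `p⁻ⁿ x` in
`V_p(J) / T_p(J) = J[p ^ ∞]`). -/
def IsV (p : ℕ) (x : ℕ → Jac a QB) : Prop :=
  ∀ n, p • x (n + 1) = x n ∧ ∃ m : ℕ, (p ^ m : ℕ) • x n = 0

/-- `c` is a continuous cocycle with values in `V_p(J)`: each coordinate is locally constant, and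
`c (σ τ) = c σ + σ (c τ)`. -/
def IsCocV (p : ℕ) (c : GQ → ℕ → Jac a QB) : Prop :=
  (∀ n, IsLocallyConstant fun σ => c σ n) ∧ (∀ σ, IsV a p (c σ)) ∧
    ∀ (σ τ : GQ) (n : ℕ), c (σ * τ) n = c σ n + act a σ (c τ n)

/-- `c` is a coboundary: `c σ = σ x - x` with `x` in `V_p(J)`. -/
def IsCobV (p : ℕ) (c : GQ → ℕ → Jac a QB) : Prop :=
  ∃ x : ℕ → Jac a QB, IsV a p x ∧ ∀ (σ : GQ) (n : ℕ), c σ n = act a σ (x n) - x n

/-- The restriction of `c` to the absolute Galois group of the completion `K` of `ℚ` (`K` is `ℚ_ℓ` or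
`ℝ`) is in the image of the Kummer map of `K`: there is a sequence `Q₀, Q₁, …` of points over the
algebraic closure of `K` with `p Qₙ₊₁ = Qₙ` such that `(c τ)ₙ = τ Qₙ - Qₙ` for all `n` and `τ`. (As `c`
is continuous with values in `V_p(J)`, some multiple `p ^ m Q₀` is a point over `K`, and the class of
`c` is `p ^ (-m)` times its image under the Kummer map.) -/
def LocKum (p : ℕ) (K : Type) [Field K] [Algebra ℚ K] (c : GQ → ℕ → Jac a QB) : Prop :=
  ∀ ι : QB →ₐ[ℚ] AlgebraicClosure K, ∃ Q : ℕ → Jac a (AlgebraicClosure K),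
    (∀ n, p • Q (n + 1) = Q n) ∧
    ∀ (τ : AlgebraicClosure K ≃ₐ[K] AlgebraicClosure K) (σ : GQ),
      (∀ x : QB, τ (ι x) = ι (σ x)) → ∀ n,
      pointMap a (ι : QB →+* AlgebraicClosure K) (c σ n) =
        pointMap a (τ : AlgebraicClosure K →+* AlgebraicClosure K) (Q n) - Q n

variable {a} {p : ℕ}

lemma pmap_sub {F L : Type} [Field F] [Field L] (φ : F →+* L) (P Q : Jac a F) :
    pointMap a φ (P - Q) = pointMap a φ P - pointMap a φ Q :=
  map_sub (pointHom a φ) P Q

lemma isV_zero : IsV a p 0 := fun _ => ⟨smul_zero _, 0, smul_zero _⟩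

lemma isV_add {x y : ℕ → Jac a QB} (hx : IsV a p x) (hy : IsV a p y) : IsV a p (x + y) := by
  intro n
  obtain ⟨h1, m, hm⟩ := hx n
  obtain ⟨h2, l, hl⟩ := hy n
  refine ⟨?_, m + l, ?_⟩
  · rw [Pi.add_apply, Pi.add_apply, smul_add, h1, h2]
  · rw [Pi.add_apply, smul_add, pow_add, mul_comm, mul_smul, hm, smul_zero, mul_comm, mul_smul, hl,
      smul_zero, add_zero]

lemma isV_neg {x : ℕ → Jac a QB} (hx : IsV a p x) : IsV a p (-x) := by
  intro n
  obtain ⟨h1, m, hm⟩ := hx n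
  refine ⟨?_, m, ?_⟩
  · rw [Pi.neg_apply, Pi.neg_apply, smul_neg, h1]
  · rw [Pi.neg_apply, smul_neg, hm, neg_zero]

lemma cocV_zero : IsCocV a p 0 :=
  ⟨fun _ => IsLocallyConstant.const _, fun _ => isV_zero, fun σ τ n => by
    simp only [Pi.zero_apply, act_zero, add_zero]⟩

lemma cocV_add {c d : GQ → ℕ → Jac a QB} (hc : IsCocV a p c) (hd : IsCocV a p d) :
    IsCocV a p (c + d) := by
  obtain ⟨a1, a2, a3⟩ := hc
  obtain ⟨b1, b2, b3⟩ := hd
  refine ⟨fun n => (a1 n).add (b1 n), fun σ => isV_add (a2 σ) (b2 σ), fun σ τ n => ?_⟩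
  simp only [Pi.add_apply, a3, b3, act_add]
  abel

lemma cocV_neg {c : GQ → ℕ → Jac a QB} (hc : IsCocV a p c) : IsCocV a p (-c) := by
  obtain ⟨a1, a2, a3⟩ := hc
  refine ⟨fun n => (a1 n).neg, fun σ => isV_neg (a2 σ), fun σ τ n => ?_⟩
  simp only [Pi.neg_apply, a3, act_neg]
  abel

lemma locKum_zero (K : Type) [Field K] [Algebra ℚ K] : LocKum a p K 0 := fun ι =>
  ⟨fun _ => 0, fun _ => smul_zero _, fun τ σ _ n => by
    simp only [Pi.zero_apply, pointMap_zero, sub_zero]⟩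

lemma locKum_add {K : Type} [Field K] [Algebra ℚ K] {c d : GQ → ℕ → Jac a QB}
    (hc : LocKum a p K c) (hd : LocKum a p K d) : LocKum a p K (c + d) := by
  intro ι
  obtain ⟨P, hP1, hP2⟩ := hc ι
  obtain ⟨Q, hQ1, hQ2⟩ := hd ι
  refine ⟨fun n => P n + Q n, fun n => ?_, fun τ σ h n => ?_⟩
  · simp only [smul_add, hP1 n, hQ1 n]
  · simp only [Pi.add_apply, pointMap_add, hP2 τ σ h n, hQ2 τ σ h n]
    abel

lemma locKum_neg {K : Type} [Field K] [Algebra ℚ K] {c : GQ → ℕ → Jac a QB}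
    (hc : LocKum a p K c) : LocKum a p K (-c) := by
  intro ι
  obtain ⟨P, hP1, hP2⟩ := hc ι
  refine ⟨fun n => -P n, fun n => ?_, fun τ σ h n => ?_⟩
  · simp only [smul_neg, hP1 n]
  · simp only [Pi.neg_apply, pointMap_neg, hP2 τ σ h n]
    abel

variable (a)

/-- the group of the coboundaries -/
def cobV (p : ℕ) : AddSubgroup (GQ → ℕ → Jac a QB) where
  carrier := {c | IsCobV a p c}
  zero_mem' := ⟨0, isV_zero, fun σ n => by simp only [Pi.zero_apply, act_zero, sub_zero]⟩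
  add_mem' := by
    rintro c d ⟨x, hx, hc⟩ ⟨y, hy, hd⟩
    refine ⟨x + y, isV_add hx hy, fun σ n => ?_⟩
    simp only [Pi.add_apply, hc, hd, act_add]
    abel
  neg_mem' := by
    rintro c ⟨x, hx, hc⟩
    refine ⟨-x, isV_neg hx, fun σ n => ?_⟩
    simp only [Pi.neg_apply, hc, act_neg]
    abel

/-- `c` is a continuous cocycle with values in `V_p(J)` whose restriction to the completions at all
the places of `ℚ` is in the image of the local Kummer map -/
def IsSelV (p : ℕ) (c : GQ → ℕ → Jac a QB) : Prop :=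
  IsCocV a p c ∧ (∀ (l : ℕ) [Fact l.Prime], LocKum a p ℚ_[l] c) ∧ LocKum a p ℝ c

/-- the group of the continuous cocycles with values in `V_p(J)` that satisfy the local conditions -/
def selCocV (p : ℕ) : AddSubgroup (GQ → ℕ → Jac a QB) where
  carrier := {c | IsSelV a p c}
  zero_mem' := ⟨cocV_zero, fun _ _ => locKum_zero _, locKum_zero _⟩
  add_mem' := fun ⟨a1, a2, a3⟩ ⟨b1, b2, b3⟩ =>
    ⟨cocV_add a1 b1, fun l _ => locKum_add (a2 l) (b2 l), locKum_add a3 b3⟩
  neg_mem' := fun ⟨a1, a2, a3⟩ =>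
    ⟨cocV_neg a1, fun l _ => locKum_neg (a2 l), locKum_neg a3⟩

/-- The Bloch–Kato Selmer group `H¹_f(ℚ, V_p(J))`: the classes of continuous cocycles with values in
`V_p(J)` whose restriction to the completion at every place is in the image of the Kummer map. -/
def H1f (p : ℕ) : Type := selCocV a p ⧸ (cobV a p).addSubgroupOf (selCocV a p)

noncomputable instance H1f.group (p : ℕ) : AddCommGroup (H1f a p) :=
  QuotientAddGroup.Quotient.addCommGroup _

end Q274.BJ
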