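import Pool.Agent.Q274.BJ.Def
import Pool.Agent.Y723.HJ.Loc

/-!
# The Bloch–Kato Selmer group of a Jacobian with trivial `p`-primary invariants
-/

set_option autoImplicit false

namespace Q274.BJ

section abs

variable {A G : Type} [AddCommGroup A] (a : G → A →+ A) {p : ℕ}

lemma p_prim (hdiv : ∀ (K : ℕ) (P : A), (∀ σ, a σ P = P) → ∃ S, (∀ σ, a σ S = S) ∧
      p • P = (p ^ (K + 1) : ℕ) • S) (c : G → A) (K : ℕ) (hK : ∀ σ, (p ^ K : ℕ) • c σ = 0)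
    (hcob : ∃ P, ∀ σ, c σ = a σ P - P) :
    ∃ P, (∃ m : ℕ, (p ^ m : ℕ) • P = 0) ∧ ∀ σ, c σ = a σ P - P := by
  obtain ⟨P0, hP0⟩ := hcob
  obtain ⟨S, hS1, hS2⟩ := hdiv K ((p ^ K : ℕ) • P0) (fun σ => by
    rw [map_nsmul, ← sub_eq_zero, ← nsmul_sub, ← hP0, hK])
  refine ⟨P0 - S, ⟨K + 1, ?_⟩, fun σ => ?_⟩
  · rw [nsmul_sub, ← hS2, smul_smul, ← pow_succ', sub_self]
  · rw [map_sub, hS1, hP0]
    abel

/-- **Lifting lemma** (inverse limits of finite nonempty sets). -/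
theorem lift (hdiv : ∀ (K : ℕ) (P : A), (∀ σ, a σ P = P) → ∃ S, (∀ σ, a σ S = S) ∧
      p • P = (p ^ (K + 1) : ℕ) • S)
    (hfin : {P : A | (∀ σ, a σ P = P) ∧ ∃ m : ℕ, (p ^ m : ℕ) • P = 0}.Finite)
    (c : G → ℕ → A) (hc : ∀ σ n, p • c σ (n + 1) = c σ n)
    (htor : ∀ n, ∃ K : ℕ, ∀ σ, (p ^ K : ℕ) • c σ n = 0)
    (hcob : ∀ n, ∃ P, ∀ σ, c σ n = a σ P - P) :
    ∃ x : ℕ → A, (∀ n, p • x (n + 1) = x n ∧ ∃ m : ℕ, (p ^ m : ℕ) • x n = 0) ∧
      ∀ σ n, c σ n = a σ (x n) - x n := by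
  have hpow : ∀ (σ : G) (n k : ℕ), (p ^ k : ℕ) • c σ (n + k) = c σ n := by
    intro σ n k
    induction k with
    | zero => simp
    | succ k ih =>
      rw [pow_succ, mul_smul, ← add_assoc, hc, ih]
  have hne : ∀ n, ∃ P, (∃ m : ℕ, (p ^ m : ℕ) • P = 0) ∧ ∀ σ, c σ n = a σ P - P := by
    intro n
    obtain ⟨K, hK⟩ := htor n
    exact p_prim a hdiv (fun σ => c σ n) K hK (hcob n)
  let S : ℕ → Type := fun n => {P : A // (∃ m : ℕ, (p ^ m : ℕ) • P = 0) ∧ ∀ σ, c σ n = a σ P - P}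
  have hFin : Finite {P : A | (∀ σ, a σ P = P) ∧ ∃ m : ℕ, (p ^ m : ℕ) • P = 0} := hfin
  have hfin' : ∀ n, Finite (S n) := by
    intro n
    obtain ⟨P0, ⟨m0, hP0⟩, hP1⟩ := hne n
    refine Finite.of_injective
      (β := {P : A | (∀ σ, a σ P = P) ∧ ∃ m : ℕ, (p ^ m : ℕ) • P = 0})
      (fun P => ⟨P.1 - P0, fun σ => ?_, ?_⟩) (fun P Q h => ?_)
    · have h1 := P.2.2 σ
      rw [hP1 σ] at h1
      rw [map_sub]
      have h2 : a σ P.1 = a σ P0 - P0 + P.1 := by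
        rw [h1]
        abel
      rw [h2]
      abel
    · obtain ⟨⟨m1, h1⟩, -⟩ := P.2
      refine ⟨m0 + m1, ?_⟩
      have e1 : (p ^ (m0 + m1) : ℕ) • P.1 = 0 := by rw [pow_add, mul_smul, h1, smul_zero]
      have e2 : (p ^ (m0 + m1) : ℕ) • P0 = 0 := by
        rw [pow_add, mul_comm, mul_smul, hP0, smul_zero]
      rw [nsmul_sub, e1, e2, sub_zero]
    · have h1 : P.1 - P0 = Q.1 - P0 := congrArg Subtype.val h
      exact Subtype.ext (sub_left_injective h1)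
  have hnon : ∀ n, Nonempty (S n) := by
    intro n
    obtain ⟨P0, hP0⟩ := hne n
    exact ⟨⟨P0, hP0⟩⟩
  obtain ⟨f, hf⟩ := exists_seq_forall_proj_of_forall_finite (α := S)
    (fun {i j} hij P => ⟨(p ^ (j - i) : ℕ) • P.1, by
      obtain ⟨⟨m, hm⟩, h2⟩ := P.2
      refine ⟨⟨m, by rw [smul_comm, hm, smul_zero]⟩, fun σ => ?_⟩
      rw [map_nsmul, ← nsmul_sub, ← h2 σ]
      have := hpow σ i (j - i)
      rw [Nat.add_sub_cancel' hij] at this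
      exact this.symm⟩)
    (fun i P => by
      apply Subtype.ext
      simp)
    (fun i j k hij hjk P => by
      apply Subtype.ext
      show (p ^ (j - i) : ℕ) • ((p ^ (k - j) : ℕ) • P.1) = (p ^ (k - i) : ℕ) • P.1
      rw [smul_smul, ← pow_add]
      congr 2
      omega)
    (fun i P => Set.toFinite _)
  refine ⟨fun n => (f n).1, fun n => ⟨?_, (f n).2.1⟩, fun σ n => (f n).2.2 σ⟩
  have h1 := congrArg Subtype.val (hf (Nat.le_add_right n 1))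
  have h2 : (p ^ (n + 1 - n) : ℕ) • (f (n + 1)).1 = (f n).1 := h1
  rw [Nat.add_sub_cancel_left, pow_one] at h2
  exact h2

end abs

open Pool.Agent.Y723.SJ

variable {g : ℕ} {a : Fin (2 * g + 1) → ℤ} {p : ℕ}

/-- the action as a homomorphism -/
noncomputable def actH (a : Fin (2 * g + 1) → ℤ) (σ : GQ) : Jac a QB →+ Jac a QB :=
  pointHom a (σ : QB →+* QB)

lemma actH_apply (σ : GQ) (P : Jac a QB) : actH a σ P = act a σ P := rfl

/-- the coordinates of a Selmer cocycle are cocycles of `Ш` -/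
lemma coord_sha {c : GQ → ℕ → Jac a QB} (hc : IsSelV a p c) (n : ℕ) :
    (fun σ => c σ n) ∈ shaCocycles a := by
  obtain ⟨⟨h1, h2, h3⟩, h4, h5⟩ := hc
  refine ⟨⟨h1 n, fun σ τ => h3 σ τ n⟩, fun l _ ι => ?_, fun ι => ?_⟩
  · obtain ⟨Q, -, hQ⟩ := h4 l ι
    exact ⟨Q n, fun τ σ hσ => hQ τ σ hσ n⟩
  · obtain ⟨Q, -, hQ⟩ := h5 ι
    exact ⟨Q n, fun τ σ hσ => hQ τ σ hσ n⟩

/-- a continuous cocycle with values in `V_p` is bounded in every coordinate -/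
lemma coord_tor {c : GQ → ℕ → Jac a QB} (hc : IsCocV a p c) (n : ℕ) :
    ∃ K : ℕ, ∀ σ, (p ^ K : ℕ) • c σ n = 0 := by
  have := Pool.Agent.Y723.HJ.galQB
  have hcs : CompactSpace GQ := inferInstance
  have hfin : (Set.range fun σ => c σ n).Finite := (hc.1 n).range_finite
  choose m hm using fun σ => (hc.2.1 σ n).2
  have hex : ∀ y ∈ Set.range (fun σ => c σ n), ∃ k : ℕ, (p ^ k : ℕ) • y = 0 := by
    rintro y ⟨σ, rfl⟩
    exact ⟨m σ, hm σ⟩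
  choose! k hk using hex
  obtain ⟨K, hK⟩ := (hfin.image k).bddAbove
  refine ⟨K, fun σ => ?_⟩
  have h1 := hk _ (Set.mem_range_self σ)
  have h2 : k (c σ n) ≤ K := hK ⟨_, Set.mem_range_self σ, rfl⟩
  rw [← Nat.sub_add_cancel h2, pow_add, mul_smul, h1, smul_zero]

/-- **The Bloch–Kato Selmer group is zero**, if the `p`-primary part of `Ш` is trivial, `p J(ℚ)` is
`p`-divisible and `J(ℚ)[p ^ ∞]` is finite. -/
theorem h1f_zero (hS : ∀ (k : ℕ) (x : Sha a), (p ^ k : ℕ) • x = 0 → x = 0)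
    (hdiv : ∀ (K : ℕ) (P : JacQ a), ∃ S : JacQ a, p • P = (p ^ (K + 1) : ℕ) • S)
    (hfin : {P : JacQ a | ∃ m : ℕ, (p ^ m : ℕ) • P = 0}.Finite) : ∀ x : H1f a p, x = 0 := by
  intro x
  obtain ⟨⟨c, hc⟩, rfl⟩ := QuotientAddGroup.mk_surjective x
  refine (QuotientAddGroup.eq_zero_iff _).2 ?_
  rw [AddSubgroup.mem_addSubgroupOf]
  have hc' : IsSelV a p c := hc
  have hcob : ∀ n, ∃ P, ∀ σ : GQ, c σ n = actH a σ P - P := by
    intro n
    obtain ⟨K, hK⟩ := coord_tor hc'.1 n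
    obtain ⟨f, hf⟩ : ∃ f : shaCocycles a, f.1 = fun σ => c σ n := ⟨⟨_, coord_sha hc' n⟩, rfl⟩
    have h0 : (p ^ K : ℕ) • f = 0 := by
      apply Subtype.ext
      rw [AddSubgroup.coe_nsmul, hf]
      funext σ
      exact hK σ
    have h1 : (p ^ K : ℕ) • (QuotientAddGroup.mk f : Sha a) = 0 := by
      have h2 : (QuotientAddGroup.mk ((p ^ K : ℕ) • f) : Sha a) = 0 := by
        rw [h0]
        rfl
      exact h2
    have h2 : (QuotientAddGroup.mk f : Sha a) = 0 := hS K _ h1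
    have h3 := (QuotientAddGroup.eq_zero_iff _).1 h2
    rw [AddSubgroup.mem_addSubgroupOf] at h3
    obtain ⟨P, hP⟩ := h3
    refine ⟨P, fun σ => ?_⟩
    rw [hf] at hP
    exact hP σ
  obtain ⟨x, hx1, hx2⟩ := lift (actH a) (p := p) (fun K P hP => by
      obtain ⟨S, hS⟩ := hdiv K ⟨P, hP⟩
      exact ⟨S.1, S.2, congrArg Subtype.val hS⟩)
    (by
      refine (hfin.image Subtype.val).subset ?_
      rintro P ⟨h1, m, hm⟩
      exact ⟨⟨P, h1⟩, ⟨m, Subtype.ext hm⟩, rfl⟩)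
    c (fun σ n => (hc'.1.2.1 σ n).1) (fun n => coord_tor hc'.1 n) hcob
  exact ⟨x, hx1, hx2⟩

end Q274.BJ
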