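import Pool.Agent.Q274.BJ.Tor2
import Pool.Agent.Y723.PT.Pos
import Pool.Agent.Y723.JG.Main

/-!
# A positive proportion of the small prime twists of almost all Jacobians has zero Selmer group

(Variant of `Pool.Agent.Y723.PT.Main`.)
-/

set_option autoImplicit false

namespace Q274.BJ

open Finset Pool.Agent.Y723.PT
open Pool.Agent.TH344.JG (LocJ SelJ PR df sJ adj BoxJ)
open Pool.Agent.Y723.JG (Fm)
open Pool.Agent.Y676 (WY PQ PAT S_KEY cn cn_ge sub_dvd)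

variable {g : ℕ}

open Classical in
/-- the primes `q ≤ Q` such that the twist by `q` has zero Selmer group -/
noncomputable def TQ (Q : ℕ) (a : Fin (2 * g + 1) → ℤ) : Finset ℕ :=
  (Icc 1 Q).filter (fun q => q.Prime ∧ (∀ x : H1f (tw q a) 2, x = 0) ∧ ∀ m : ℕ, 1 ≤ m →
    Nat.card (Pool.Agent.Y723.SJ.QuotQ (tw q a) (2 ^ m)) = 2 ^ (2 * g))

open Classical in
theorem mainB (hkey : S_KEY) (hg : 1 ≤ g) (ε : ℝ) (hε : 0 < ε) : ∃ c : ℝ, 0 < c ∧
    ∃ X0 : ℕ, ∀ X : ℕ, X0 ≤ X → ∀ Q : ℕ, (Real.log X) ^ (CE (2 * g + 1)) ≤ Q →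
    (((Fm (2 * g + 1) X).filter (fun a => ¬ c * Q / Real.log Q ≤ ((TQ Q a).card : ℝ))).card : ℝ) ≤
      ε * ((Fm (2 * g + 1) X).card : ℝ) := by
  obtain ⟨Y1, hY12, hY1⟩ := box_all (2 * g + 1) (by omega) (ε / 2) (by positivity)
  obtain ⟨Y2, hY22, hY2⟩ := pos_count (n := 2 * g + 1) hkey ⟨g, rfl⟩ (by omega) (ε / 2)
    (by positivity)
  obtain ⟨Y, hY⟩ : ∃ Y : ℕ, Y = max Y1 Y2 := ⟨_, rfl⟩
  have hYge : 2 ≤ Y := by rw [hY]; exact hY12.trans (le_max_left _ _)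
  obtain ⟨X1, hX1⟩ := hY1 Y (by rw [hY]; exact le_max_left _ _)
  obtain ⟨c, hc, X2, hX2⟩ := hY2 Y (by rw [hY]; exact le_max_right _ _)
  obtain ⟨X3, hX3⟩ := Pool.Agent.Y723.JG.Fm_card (2 * g + 1) (by omega)
  have hW0 : 0 < WY Y := by unfold WY; have := Nat.factorial_pos Y; positivity
  obtain ⟨c', Q0, hc', hpnt⟩ := Pool.Agent.Y157.SH.pnt (WY Y) hW0
  refine ⟨c / 2 * c', by positivity, ?_⟩
  have tL : Filter.Tendsto (fun X : ℕ => Real.log (X : ℝ)) Filter.atTop Filter.atTop :=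
    Real.tendsto_log_atTop.comp tendsto_natCast_atTop_atTop
  obtain ⟨X4, hX4⟩ := Filter.eventually_atTop.1 ((tL.eventually_ge_atTop 1).and
    (tL.eventually_ge_atTop (Q0 + 2)))
  refine ⟨X1 + X2 + X3 + X4, fun X hX Q hQ => ?_⟩
  obtain ⟨b1, b3⟩ := hX4 X (by omega)
  have hQT : (Real.log X) ^ (CE (2 * g + 1)) ≤ 2 * Q := by
    have h2 : (0 : ℝ) ≤ Q := Nat.cast_nonneg _
    linarith
  have hQQ : ((Q0 : ℝ) + 2) ≤ Q := by
    have e1 : Real.log X ≤ (Real.log X) ^ (CE (2 * g + 1)) :=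
      le_self_pow₀ b1 (by unfold CE; omega)
    linarith
  have hQ0 : Q0 ≤ Q := by
    have : (Q0 : ℝ) ≤ Q := by linarith
    exact_mod_cast this
  have h1 := hX1 X (by omega) Q hQT
  have h2 := hX2 X (by omega)
  have h3 := hX3 X (by omega)
  have hsub : (Fm (2 * g + 1) X).filter (fun a => ¬ c / 2 * c' * Q / Real.log Q ≤
      ((TQ Q a).card : ℝ)) ⊆ (Fm (2 * g + 1) X).filter (fun a => ¬ GT Y X Q a) ∪
        (Fm (2 * g + 1) X).filter (fun a => ¬ Pst Y c a) := by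
    intro a ha
    rw [mem_filter] at ha
    rw [mem_union, mem_filter, mem_filter]
    by_contra hcon
    have hG : GT Y X Q a := by
      by_contra h
      exact hcon (Or.inl ⟨ha.1, h⟩)
    have hP : Pst Y c a := by
      by_contra h
      exact hcon (Or.inr ⟨ha.1, h⟩)
    apply ha.2
    have hinj := (mem_Fm.1 ha.1).2
    obtain ⟨S, s1, s2⟩ := many_good ha.1 hG hP
    have hsub : S ⊆ TQ Q a := by
      intro q hq
      obtain ⟨hqp, q1, T, hT, hgq⟩ := s1 q hq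
      unfold TQ
      rw [mem_filter, mem_Icc]
      obtain ⟨t1, t2⟩ := tw_card ⟨g, rfl⟩ hYge hinj hG.ty1 hT hgq
      exact ⟨⟨hqp.one_lt.le, q1⟩, hqp, h1f_of hg hinj hqp hgq.nd t1 t2,
        fun m hm => (triv_of hg hinj hqp hgq.nd t1 t2 m hm).1⟩
    have h7 : (S.card : ℝ) ≤ ((TQ Q a).card : ℝ) := by exact_mod_cast card_le_card hsub
    refine le_trans ?_ (s2.trans h7)
    have h8 := hpnt Q hQ0
    calc c / 2 * c' * Q / Real.log Q = c / 2 * (c' * Q / Real.log Q) := by ring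
      _ ≤ _ := mul_le_mul_of_nonneg_left h8 (by positivity)
  have h5 : (((Fm (2 * g + 1) X).filter (fun a => ¬ c / 2 * c' * Q / Real.log Q ≤
      ((TQ Q a).card : ℝ))).card : ℝ) ≤ (((Fm (2 * g + 1) X).filter
        (fun a => ¬ GT Y X Q a)).card : ℝ) +
        (((Fm (2 * g + 1) X).filter (fun a => ¬ Pst Y c a)).card : ℝ) := by
    exact_mod_cast (card_le_card hsub).trans (card_union_le _ _)
  have h6 : (0 : ℝ) ≤ (X : ℝ) ^ (2 * g + 1) := by positivity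
  nlinarith

end Q274.BJ
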