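import Pool.Agent.Q274.BJ.Tor2
import Pool.Agent.Q44.JQ.Bd

/-!
# The rank of the Bloch–Kato Selmer group of a Jacobian

`lat a p` is the subgroup of `H¹_f(ℚ, V_p J)` of the classes of the cocycles with values in `T_p J`. It is a
lattice in `H¹_f(ℚ, V_p J)`, so the order of `lat / p lat` is `p ^ d` where `d` is the dimension of
`H¹_f(ℚ, V_p J)`.
-/

set_option autoImplicit false

open scoped Classical

namespace Q274.BJ

open Pool.Agent.Y723.SJ
open Q44.JQ (mulS mem_mulS)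

variable {g : ℕ} (a : Fin (2 * g + 1) → ℤ)

/-- the class of a cocycle -/
noncomputable def clsV (p : ℕ) (c : selCocV a p) : H1f a p := QuotientAddGroup.mk c

lemma clsV_add (p : ℕ) (c d : selCocV a p) : clsV a p (c + d) = clsV a p c + clsV a p d := rfl

lemma clsV_neg (p : ℕ) (c : selCocV a p) : clsV a p (-c) = -clsV a p c := rfl

/-- `x` is the class of a cocycle with values in `T_p(J)`. -/
def IsInt (p : ℕ) (x : H1f a p) : Prop := ∃ c : selCocV a p, (∀ σ, c.1 σ 0 = 0) ∧ clsV a p c = x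

lemma isInt_zero (p : ℕ) : IsInt a p 0 := ⟨0, fun _ => rfl, rfl⟩

lemma isInt_add (p : ℕ) {x y : H1f a p} (hx : IsInt a p x) (hy : IsInt a p y) : IsInt a p (x + y) := by
  obtain ⟨c, hc, rfl⟩ := hx
  obtain ⟨d, hd, rfl⟩ := hy
  refine ⟨c + d, fun σ => ?_, rfl⟩
  show c.1 σ 0 + d.1 σ 0 = 0
  rw [hc σ, hd σ, add_zero]

lemma isInt_neg (p : ℕ) {x : H1f a p} (hx : IsInt a p x) : IsInt a p (-x) := by
  obtain ⟨c, hc, rfl⟩ := hx
  refine ⟨-c, fun σ => ?_, rfl⟩
  show -c.1 σ 0 = 0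
  rw [hc σ, neg_zero]

/-- The lattice of the classes of the cocycles with values in `T_p(J)`. -/
noncomputable def lat (p : ℕ) : AddSubgroup (H1f a p) where
  carrier := {x | IsInt a p x}
  zero_mem' := isInt_zero a p
  add_mem' := isInt_add a p
  neg_mem' := isInt_neg a p

/-- The quotient `L / 2 L` for the lattice `L` of the classes of the cocycles with values in `T_2(J)`. -/
def LModTwo : Type := lat a 2 ⧸ (nsmulAddMonoidHom 2 : lat a 2 →+ lat a 2).range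

variable {a}

theorem card_quot_le {N B : Type} [AddCommGroup N] [Finite B] (M : AddSubgroup N) (F : N → B)
    (h : ∀ x y, F x = F y → x - y ∈ M) : Finite (N ⧸ M) ∧ Nat.card (N ⧸ M) ≤ Nat.card B := by
  have hinj : Function.Injective (fun q : N ⧸ M => F q.out) := by
    intro q r hqr
    have h1 := h _ _ hqr
    have h2 : (QuotientAddGroup.mk (q.out - r.out) : N ⧸ M) = 0 := (QuotientAddGroup.eq_zero_iff _).2 h1
    have h3 : (QuotientAddGroup.mk q.out : N ⧸ M) - QuotientAddGroup.mk r.out = 0 := h2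
    rw [sub_eq_zero] at h3
    have h4 : (QuotientAddGroup.mk q.out : N ⧸ M) = q := Quotient.out_eq q
    have h5 : (QuotientAddGroup.mk r.out : N ⧸ M) = r := Quotient.out_eq r
    rw [← h4, h3, h5]
  exact ⟨Finite.of_injective _ hinj, Nat.card_le_card_of_injective _ hinj⟩

/-- the coordinates of a cocycle in the lattice, first coordinate -/
lemma one_tor {c : selCocV a 2} (hc : ∀ σ, c.1 σ 0 = 0) (σ : GQ) : 2 • c.1 σ 1 = 0 := by
  have h : IsSelV a 2 c.1 := c.2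
  rw [(h.1.2.1 σ 0).1, hc σ]

/-- the class in `Ш` of the first coordinate -/
noncomputable def shC (c : selCocV a 2) : Sha a :=
  QuotientAddGroup.mk (⟨fun σ => c.1 σ 1, coord_sha c.2 1⟩ : shaCocycles a)

lemma shC_sub (c d : selCocV a 2) : shC (c - d) = shC c - shC d := rfl

lemma shC_tor {c : selCocV a 2} (hc : ∀ σ, c.1 σ 0 = 0) : 2 • shC c = 0 := by
  have h1 : (2 • (⟨fun σ => c.1 σ 1, coord_sha c.2 1⟩ : shaCocycles a)) = 0 := by
    apply Subtype.ext
    rw [AddSubgroup.coe_nsmul]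
    funext σ
    exact one_tor hc σ
  have h2 : (QuotientAddGroup.mk (2 • (⟨fun σ => c.1 σ 1, coord_sha c.2 1⟩ : shaCocycles a)) : Sha a) = 0 := by
    rw [h1]
    rfl
  exact h2

lemma shC_zero {c : selCocV a 2} (h : shC c = 0) : ∃ P : Jac a QB, ∀ σ, c.1 σ 1 = act a σ P - P := by
  have h3 := (QuotientAddGroup.eq_zero_iff _).1 h
  rw [AddSubgroup.mem_addSubgroupOf] at h3
  exact h3

/-- the shift of a cocycle -/
lemma shift_sel {c : GQ → ℕ → Jac a QB} (hc : IsSelV a 2 c) : IsSelV a 2 (fun σ n => c σ (n + 1)) := by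
  obtain ⟨⟨h1, h2, h3⟩, h4, h5⟩ := hc
  refine ⟨⟨fun n => h1 (n + 1), fun σ n => h2 σ (n + 1), fun σ τ n => h3 σ τ (n + 1)⟩, fun l _ ι => ?_,
    fun ι => ?_⟩
  · obtain ⟨Q, hQ1, hQ2⟩ := h4 l ι
    exact ⟨fun n => Q (n + 1), fun n => hQ1 (n + 1), fun τ σ h n => hQ2 τ σ h (n + 1)⟩
  · obtain ⟨Q, hQ1, hQ2⟩ := h5 ι
    exact ⟨fun n => Q (n + 1), fun n => hQ1 (n + 1), fun τ σ h n => hQ2 τ σ h (n + 1)⟩

/-- the coboundary of a sequence of points -/
noncomputable def dV (x : ℕ → Jac a QB) : GQ → ℕ → Jac a QB := fun σ n => act a σ (x n) - x n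

/-- **the bound for the lattice** -/
theorem lat_le (hdiv : ∀ P : Jac a QB, ∃ Q : Jac a QB, 2 • Q = P)
    (hcob : ∀ x : ℕ → Jac a QB, IsV a 2 x → IsSelV a 2 (dV x))
    (K : AddSubgroup (JacQ a)) (hK : ∀ x ∈ K, ∃ R t : JacQ a, x = 2 • R + t ∧ 2 • t = 0)
    [Finite (JacQ a ⧸ K)] [Finite (ShaTorsion a 2)] :
    Finite (lat a 2 ⧸ mulS (lat a 2) 2) ∧
      Nat.card (lat a 2 ⧸ mulS (lat a 2) 2) ≤ Nat.card (ShaTorsion a 2) * Nat.card (JacQ a ⧸ K) := by
  -- representatives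
  have hrep : ∀ x : lat a 2, ∃ c : selCocV a 2, (∀ σ, c.1 σ 0 = 0) ∧
      (QuotientAddGroup.mk c : H1f a 2) = x.1 := by
    rintro ⟨x, c, hc, rfl⟩
    exact ⟨c, hc, rfl⟩
  choose c hc0 hc using hrep
  obtain ⟨s, hs⟩ : ∃ s : lat a 2 → ShaTorsion a 2, ∀ x, (s x).1 = shC (c x) :=
    ⟨fun x => ⟨shC (c x), shC_tor (hc0 x)⟩, fun x => rfl⟩
  obtain ⟨r, hr⟩ : ∃ r : ShaTorsion a 2 → lat a 2, ∀ x, s (r (s x)) = s x := by
    refine ⟨fun t => if h : ∃ x, s x = t then h.choose else 0, fun x => ?_⟩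
    have h : ∃ y, s y = s x := ⟨x, rfl⟩
    simp only [dif_pos h]
    exact h.choose_spec
  have hP : ∀ x, ∃ P : Jac a QB, ∀ σ, (c x).1 σ 1 - (c (r (s x))).1 σ 1 = act a σ P - P := by
    intro x
    have h1 : shC (c x - c (r (s x))) = 0 := by
      rw [shC_sub, ← hs, ← hs, hr, sub_self]
    exact shC_zero h1
  choose P hP using hP
  have hinv : ∀ x, (2 • P x) ∈ JacQ a := by
    intro x σ
    have h1 := hP x σ
    have h2 : 2 • ((c x).1 σ 1 - (c (r (s x))).1 σ 1) = 0 := by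
      rw [smul_sub, one_tor (hc0 x), one_tor (hc0 _), sub_zero]
    rw [h1, smul_sub, sub_eq_zero] at h2
    have h3 : act a σ (2 • P x) = 2 • act a σ (P x) := map_nsmul (pointHom a (σ : QB →+* QB)) 2 (P x)
    show act a σ (2 • P x) = 2 • P x
    rw [h3, h2]
  obtain ⟨F, hF⟩ : ∃ F : lat a 2 → ShaTorsion a 2 × (JacQ a ⧸ K), ∀ x,
      F x = (s x, QuotientAddGroup.mk (⟨2 • P x, hinv x⟩ : JacQ a)) := ⟨_, fun _ => rfl⟩
  have key := card_quot_le (mulS (lat a 2) 2) F ?_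
  · rwa [Nat.card_prod] at key
  intro x y hxy
  rw [hF, hF, Prod.mk.injEq] at hxy
  obtain ⟨e1, e2⟩ := hxy
  have e3 := (QuotientAddGroup.eq).1 e2.symm
  obtain ⟨R, t, hRt, ht⟩ := hK _ e3
  have hRt' : -(2 • P y) + 2 • P x = 2 • R.1 + t.1 := congrArg Subtype.val hRt
  have ht' : 2 • t.1 = 0 := congrArg Subtype.val ht
  -- the torsion point
  obtain ⟨P', hP'⟩ : ∃ P', P' = P x - P y - R.1 := ⟨_, rfl⟩
  have h2P : 2 • P' = t.1 := by
    have h1 : t.1 = -(2 • P y) + 2 • P x - 2 • R.1 := by rw [hRt']; abel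
    rw [hP', smul_sub, smul_sub, h1]
    abel
  obtain ⟨h, hh⟩ : ∃ h : Jac a QB → Jac a QB, ∀ Q, 2 • h Q = Q := ⟨fun Q => (hdiv Q).choose, fun Q => (hdiv Q).choose_spec⟩
  obtain ⟨v, hv0, hv1⟩ : ∃ v : ℕ → Jac a QB, v 0 = t.1 ∧ ∀ n, v (n + 1) = h^[n] P' :=
    ⟨fun n => if n = 0 then t.1 else h^[n - 1] P', if_pos rfl, fun n => by
      simp only [Nat.add_one_ne_zero, if_false, Nat.add_sub_cancel]⟩
  have hv : ∀ n, 2 • v (n + 1) = v n := by
    intro n
    rcases n with _ | n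
    · rw [hv1, hv0]
      exact h2P
    · rw [hv1, hv1, Function.iterate_succ_apply', hh]
  have hvV : IsV a 2 v := by
    intro n
    refine ⟨hv n, n + 1, ?_⟩
    induction n with
    | zero => rw [zero_add, pow_one, hv0]; exact ht'
    | succ n ih =>
      rw [pow_succ, mul_smul, hv]
      exact ih
  obtain ⟨b, hb⟩ : ∃ b : selCocV a 2, b.1 = dV v := ⟨⟨dV v, hcob v hvV⟩, rfl⟩
  have hb0 : (QuotientAddGroup.mk b : H1f a 2) = 0 := by
    refine (QuotientAddGroup.eq_zero_iff _).2 ?_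
    rw [AddSubgroup.mem_addSubgroupOf, hb]
    exact ⟨v, hvV, fun σ n => rfl⟩
  obtain ⟨c', hc'⟩ : ∃ c' : selCocV a 2, c' = c x - c y - b := ⟨_, rfl⟩
  have hc'v : ∀ σ n, c'.1 σ n = (c x).1 σ n - (c y).1 σ n - (act a σ (v n) - v n) := by
    intro σ n
    rw [hc']
    show (c x).1 σ n - (c y).1 σ n - b.1 σ n = _
    rw [hb]
    rfl
  have hc'1 : ∀ σ, c'.1 σ 1 = 0 := by
    intro σ
    rw [hc'v]
    have h1 := hP x σ
    have h2 := hP y σ
    rw [← e1] at h2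
    have h3 : (c x).1 σ 1 - (c y).1 σ 1 = (act a σ (P x) - P x) - (act a σ (P y) - P y) := by
      rw [← h1, ← h2]
      abel
    have h4 : v 1 = P' := by
      have := hv1 0
      rwa [Function.iterate_zero_apply, zero_add] at this
    have h5 : act a σ P' = act a σ (P x) - act a σ (P y) - R.1 := by
      rw [hP', show P x - P y - R.1 = P x + -P y + -R.1 by abel, act_add, act_add, act_neg, act_neg, R.2 σ]
      abel
    rw [h3, h4, h5, hP']
    abel
  have hc'0 : ∀ σ, c'.1 σ 0 = 0 := by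
    intro σ
    have h : IsSelV a 2 c'.1 := c'.2
    rw [← (h.1.2.1 σ 0).1, hc'1, smul_zero]
  obtain ⟨d, hd⟩ : ∃ d : selCocV a 2, d.1 = fun σ n => c'.1 σ (n + 1) := ⟨⟨_, shift_sel c'.2⟩, rfl⟩
  have hd0 : ∀ σ, d.1 σ 0 = 0 := by
    intro σ
    rw [hd]
    exact hc'1 σ
  have hdc : 2 • d = c' := by
    apply Subtype.ext
    rw [AddSubgroup.coe_nsmul]
    funext σ n
    have h : IsSelV a 2 c'.1 := c'.2
    show 2 • d.1 σ n = c'.1 σ n
    rw [hd]
    exact (h.1.2.1 σ n).1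
  obtain ⟨D, hD⟩ : ∃ D : lat a 2, D.1 = (QuotientAddGroup.mk d : H1f a 2) :=
    ⟨⟨QuotientAddGroup.mk d, d, hd0, rfl⟩, rfl⟩
  refine ⟨D, ?_⟩
  apply Subtype.ext
  show 2 • D.1 = x.1 - y.1
  have h6 : c x - c y = 2 • d + b := by
    rw [hdc, hc']
    abel
  have h7 : (QuotientAddGroup.mk (c x - c y) : H1f a 2) = QuotientAddGroup.mk (2 • d + b) := by rw [h6]
  have h8 : (QuotientAddGroup.mk (2 • d + b) : H1f a 2) = 2 • (QuotientAddGroup.mk d : H1f a 2) + QuotientAddGroup.mk b := rfl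
  have h9 : (QuotientAddGroup.mk (c x - c y) : H1f a 2) = (QuotientAddGroup.mk (c x) : H1f a 2) - QuotientAddGroup.mk (c y) := rfl
  rw [h9, h8, hb0, add_zero] at h7
  rw [hD]
  exact h7.symm.trans (congrArg₂ (fun u v => u - v) (hc x) (hc y))

open Pool.Agent.Y723.HJ (HF hpol hpolHF charQB)

/-- the points are divisible by two -/
lemma half [HF (hpol a QB)] (P : Jac a QB) : ∃ Q : Jac a QB, 2 • Q = P := by
  haveI := charQB
  obtain ⟨c, hc⟩ := Pool.Agent.Y723.HJ.halve_cl (f := hpol a QB) (((eJ a QB).symm P).toMul)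
  have h1 : 2 • (Additive.ofMul c : Pool.Agent.Y723.HJ.Jac a QB) = (eJ a QB).symm P := by
    rw [← ofMul_pow, hc]
    rfl
  refine ⟨eJ a QB (Additive.ofMul c), ?_⟩
  rw [← map_nsmul, h1, AddEquiv.apply_symm_apply]

/-- the coboundaries satisfy the local conditions -/
lemma cob_sel (ha : Function.Injective a) [HF (hpol a QB)] {x : ℕ → Jac a QB} (hx : IsV a 2 x) :
    IsSelV a 2 (dV x) := by
  have hS : ∀ n, IsShaCocycle a (fun σ => act a σ (x n) - x n) := by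
    intro n
    have h1 := (sha_iff a _).1 (Pool.Agent.Y723.HJ.cob_sha ha ((eJ a QB).symm (x n)))
    exact h1
  have hact : ∀ (σ : GQ) (P : Jac a QB), act a σ (2 • P) = 2 • act a σ P := fun σ P =>
    map_nsmul (pointHom a (σ : QB →+* QB)) 2 P
  have hpow : ∀ (σ : GQ) (m : ℕ) (P : Jac a QB), act a σ (m • P) = m • act a σ P := fun σ m P =>
    map_nsmul (pointHom a (σ : QB →+* QB)) m P
  have hL : ∀ (K : Type) [Field K] [Algebra ℚ K], LocKum a 2 K (dV x) := by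
    intro K _ _ ι
    have hcQ := charQB
    haveI : CharZero K := algebraRat.charZero K
    haveI : HF (hpol a (AlgebraicClosure K)) := hpolHF ha _
    refine ⟨fun n => pointMap a (ι : QB →+* AlgebraicClosure K) (x n), fun n => ?_, fun τ σ hc n => ?_⟩
    · have h1 : 2 • pointMap a (ι : QB →+* AlgebraicClosure K) (x (n + 1)) =
          pointMap a (ι : QB →+* AlgebraicClosure K) (2 • x (n + 1)) :=
        (map_nsmul (pointHom a (ι : QB →+* AlgebraicClosure K)) 2 (x (n + 1))).symm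
      rw [h1, (hx n).1]
    · have h := Pool.Agent.Y723.HJ.jmap_sq (a := a) (σ : QB →+* QB) (ι : QB →+* AlgebraicClosure K)
        (ι : QB →+* AlgebraicClosure K) (τ : AlgebraicClosure K →+* AlgebraicClosure K)
        (fun x => (hc x).symm) ((eJ a QB).symm (x n))
      have h' : pointMap a (ι : QB →+* AlgebraicClosure K) (act a σ (x n)) =
          pointMap a (τ : AlgebraicClosure K →+* AlgebraicClosure K)
            (pointMap a (ι : QB →+* AlgebraicClosure K) (x n)) := h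
      show pointMap a (ι : QB →+* AlgebraicClosure K) (act a σ (x n) - x n) = _
      rw [pmap_sub, h']
  refine ⟨⟨fun n => (hS n).1.1, fun σ n => ⟨?_, ?_⟩, fun σ τ n => (hS n).1.2 σ τ⟩, fun l _ => hL ℚ_[l], hL ℝ⟩
  · show 2 • (act a σ (x (n + 1)) - x (n + 1)) = act a σ (x n) - x n
    rw [smul_sub, ← hact, (hx n).1]
  · obtain ⟨m, hm⟩ := (hx n).2
    refine ⟨m, ?_⟩
    show (2 ^ m) • (act a σ (x n) - x n) = 0
    rw [smul_sub, ← hpow, hm, act_zero, sub_zero]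

open Pool.Agent.Y723 Pool.Agent.Y723.PT in
/-- **the rank of the Selmer group of the twist** -/
theorem lat_of (hg : 1 ≤ g) {q : ℕ} (ha : Function.Injective a)
    (hq : q.Prime) (hnd : ¬ q ∣ DA a) (hfin : (Pool.Agent.TH344.JG.SelJ (tw q a)).Finite) {e : ℕ}
    (hcard : (Pool.Agent.TH344.JG.SelJ (tw q a)).ncard ≤ 2 ^ (2 * g + e)) :
    Finite (lat (tw q a) 2 ⧸ mulS (lat (tw q a) 2) 2) ∧
      Nat.card (lat (tw q a) 2 ⧸ mulS (lat (tw q a) 2) 2) ≤ 2 ^ e := by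
  have hq0 : (q : ℤ) ≠ 0 := by exact_mod_cast hq.ne_zero
  have htw := tw_inj hq0 ha
  haveI : HF (hpol (tw q a) QB) := by
    haveI := charQB
    exact hpolHF htw _
  obtain ⟨b1, b2, b3, b4⟩ := Q44.JQ.bd_of hg ha hq hnd hfin hcard 1 le_rfl
  rw [pow_one, mul_one] at b4
  rw [pow_one] at b1 b2
  -- the points of order two
  let ι : Type := {S : Finset (Fin (2 * g + 1)) //
    S ∈ (Finset.univ.erase (0 : Fin (2 * g + 1))).powerset}
  have hcι : Fintype.card ι = 2 ^ (2 * g) := by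
    rw [Fintype.card_coe, Finset.card_powerset,
      Finset.card_erase_of_mem (Finset.mem_univ _), Finset.card_univ, Fintype.card_fin,
      Nat.add_sub_cancel]
  have hmem : ∀ S, PS (tw q a) S ∈ HJ.JacQ (tw q a) := fun S σ => by
    haveI := charQB
    exact Pool.Agent.Y723.HJ.tor_fix _ (PS_two hg S)
  let P : ι → JacQ (tw q a) := fun S => eQ (tw q a) ⟨PS (tw q a) S.1, hmem S.1⟩
  have hP2 : ∀ i, 2 • P i = 0 := by
    intro i
    show 2 • eQ (tw q a) ⟨PS (tw q a) i.1, hmem i.1⟩ = 0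
    rw [← map_nsmul]
    have h1 : 2 • (⟨PS (tw q a) i.1, hmem i.1⟩ : HJ.JacQ (tw q a)) = 0 := by
      apply Subtype.ext
      rw [AddSubgroup.coe_nsmul, two_nsmul]
      exact PS_two hg i.1
    rw [h1, map_zero]
  have hPinj : ∀ i j, -P i + P j ∈ mulS (JacQ (tw q a)) 2 → i = j := by
    rintro ⟨S, hS⟩ ⟨S', hS'⟩ h
    obtain ⟨R0, hR0⟩ := mem_mulS.1 h
    obtain ⟨R, hRR⟩ : ∃ R, R = (eQ (tw q a)).symm R0 := ⟨_, rfl⟩
    have hR : R + R = -⟨PS (tw q a) S, hmem S⟩ + ⟨PS (tw q a) S', hmem S'⟩ := by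
      apply (eQ (tw q a)).injective
      rw [map_add, map_add, map_neg, hRR, AddEquiv.apply_symm_apply, ← two_nsmul, hR0]
    have hR' : R.1 + R.1 = -PS (tw q a) S + PS (tw q a) S' := congrArg Subtype.val hR
    have h2 : -PS (tw q a) S = PS (tw q a) S := neg_eq_of_add_eq_zero_left (PS_two hg S)
    rw [h2] at hR'
    apply Subtype.ext
    rw [Finset.mem_powerset] at hS hS'
    exact ind_two hg ha hq hnd (fun h => (Finset.mem_erase.1 (hS h)).1 rfl)
      (fun h => (Finset.mem_erase.1 (hS' h)).1 rfl) R hR'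
  -- the subgroup `K`
  obtain ⟨T, hT⟩ : ∃ T : AddSubgroup (JacQ (tw q a)), ∀ t, t ∈ T ↔ 2 • t = 0 :=
    ⟨(nsmulAddMonoidHom 2 : JacQ (tw q a) →+ JacQ (tw q a)).ker, fun t => Iff.rfl⟩
  set M : AddSubgroup (JacQ (tw q a)) := mulS (JacQ (tw q a)) 2 with hM
  set K : AddSubgroup (JacQ (tw q a)) := M ⊔ T with hKd
  have hK : ∀ x ∈ K, ∃ R t : JacQ (tw q a), x = 2 • R + t ∧ 2 • t = 0 := by
    intro x hx
    obtain ⟨y, ⟨R, rfl⟩, t, ht, rfl⟩ := AddSubgroup.mem_sup.1 hx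
    exact ⟨R, t, rfl, (hT t).1 ht⟩
  have hMK : M ≤ K := le_sup_left
  have h3 : M.relIndex K * K.index = M.index := AddSubgroup.relIndex_mul_index hMK
  have hMi : M.index = Nat.card (QuotQ (tw q a) 2) := rfl
  have hM0 : M.index ≠ 0 := by
    rw [hMi]
    haveI : Nonempty (QuotQ (tw q a) 2) := ⟨QuotientAddGroup.mk 0⟩
    exact Nat.card_pos.ne'
  have hK0 : K.index ≠ 0 := fun h => hM0 (by rw [← h3, h, mul_zero])
  have hr0 : M.relIndex K ≠ 0 := fun h => hM0 (by rw [← h3, h, zero_mul])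
  have h4 : 2 ^ (2 * g) ≤ M.relIndex K := by
    haveI : Finite (K ⧸ M.addSubgroupOf K) := Nat.finite_of_card_ne_zero hr0
    rw [← hcι, ← Nat.card_eq_fintype_card]
    refine Nat.card_le_card_of_injective
      (fun i => (QuotientAddGroup.mk (⟨P i, AddSubgroup.mem_sup_right ((hT _).2 (hP2 i))⟩ : K) :
        K ⧸ M.addSubgroupOf K)) ?_
    intro i j hij
    have h5 := (QuotientAddGroup.eq).1 hij
    exact hPinj i j h5
  haveI : Finite (JacQ (tw q a) ⧸ K) := Nat.finite_of_card_ne_zero hK0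
  haveI := b2
  obtain ⟨k1, k2⟩ := lat_le (a := tw q a) half (fun x hx => cob_sel htw hx) K hK
  refine ⟨k1, ?_⟩
  have h6 : 2 ^ (2 * g) * Nat.card (lat (tw q a) 2 ⧸ mulS (lat (tw q a) 2) 2) ≤ 2 ^ (2 * g) * 2 ^ e := by
    calc 2 ^ (2 * g) * Nat.card (lat (tw q a) 2 ⧸ mulS (lat (tw q a) 2) 2) ≤
        M.relIndex K * (Nat.card (ShaTorsion (tw q a) 2) * K.index) := Nat.mul_le_mul h4 k2
      _ = Nat.card (QuotQ (tw q a) 2) * Nat.card (ShaTorsion (tw q a) 2) := by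
          rw [← hMi, ← h3]
          ring
      _ ≤ 2 ^ (2 * g + e) := b4
      _ = 2 ^ (2 * g) * 2 ^ e := pow_add _ _ _
  exact Nat.le_of_mul_le_mul_left h6 (by positivity)

end Q274.BJ
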