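import Pool.Agent.Y723.PT.Tor
import Pool.Agent.Q274.BJ.Main

/-!
# No rational points of order four on the twisted Jacobians, vanishing of the Selmer group
-/

set_option autoImplicit false

namespace Q274.BJ

open Polynomial Pool.Agent.Y723.HJ Pool.Agent.Y723.PT

variable {g : ℕ} {a : Fin (2 * g + 1) → ℤ}

section

variable [HF (hpol a QB)]

lemma root_cl (m : Fin (2 * g + 1)) :
    cl (mi (hpol a QB) (X - C ((a m : ℤ) : QB)) 0) = cl (Im a m) := by
  have h1 : cl (mi (hpol a QB) (X - C ((a m : ℤ) : QB)) (-(vm a m QB))) = cl (Im a m) :=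
    cl_compl (um_mul m)
  have h2 : mi (hpol a QB) (X - C ((a m : ℤ) : QB)) (-(vm a m QB)) =
      mi (hpol a QB) (X - C ((a m : ℤ) : QB)) 0 := by
    have := mi_shift (f := hpol a QB) (u := X - C ((a m : ℤ) : QB)) (v := 0) (s := -1)
    rw [← this]
    congr 1
    unfold vm
    ring
  rw [← h1, h2]

lemma prod_dvd (S : Finset (Fin (2 * g + 1))) :
    (∏ m ∈ S, (X - C ((a m : ℤ) : QB))) ∣ hpol a QB - 0 ^ 2 := by
  rw [zero_pow two_ne_zero, sub_zero]
  exact Finset.prod_dvd_prod_of_subset _ _ _ (Finset.subset_univ S)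

lemma prod_cl (S : Finset (Fin (2 * g + 1))) :
    Additive.ofMul (cl (mi (hpol a QB) (∏ m ∈ S, (X - C ((a m : ℤ) : QB))) 0)) = PS a S := by
  classical
  induction S using Finset.induction_on with
  | empty =>
    have htop : mi (hpol a QB) (∏ m ∈ (∅ : Finset (Fin (2 * g + 1))),
        (X - C ((a m : ℤ) : QB))) 0 = ⊤ := by
      rw [Finset.prod_empty, Ideal.eq_top_iff_one]
      have := mi_C_mem (f := hpol a QB) (u := 1) (v := 0) (p := 1) dvd_rfl
      rwa [show CC (hpol a QB) 1 = 1 from map_one _] at this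
    rw [htop, cl_top]
    rfl
  | insert m S hm ih =>
    have h1 := prod_dvd (a := a) (insert m S)
    rw [Finset.prod_insert hm] at h1 ⊢
    rw [mi_mul h1, cl_mul (mi_ne (X_sub_C_ne_zero _))
      (mi_ne (monic_prod_of_monic _ _ fun i _ => monic_X_sub_C _).ne_zero), ofMul_mul, ih, root_cl]
    unfold PS
    rw [Finset.sum_insert hm]

lemma PS_univ : PS a Finset.univ = 0 := by
  rw [← prod_cl]
  have h1 : (∏ m ∈ (Finset.univ : Finset (Fin (2 * g + 1))), (X - C ((a m : ℤ) : QB))) =
      hpol a QB - 0 ^ 2 := by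
    rw [zero_pow two_ne_zero, sub_zero]
    rfl
  rw [h1, mi_self, cl_span (fun h => one_ne_zero (congrArg QuadraticAlgebra.im h))]
  rfl

lemma PS_compl (hg : 1 ≤ g) (S : Finset (Fin (2 * g + 1))) : PS a Sᶜ = PS a S := by
  classical
  have h1 : PS a S + PS a Sᶜ = 0 := by
    rw [← PS_univ (a := a)]
    unfold PS
    exact Finset.sum_add_sum_compl S _
  rw [eq_neg_of_add_eq_zero_right h1, neg_eq_iff_add_eq_zero]
  exact PS_two hg S

/-- the points of order two -/
theorem two_tor (ha : Function.Injective a) (T : Pool.Agent.Y723.HJ.Jac a QB) (hT : T + T = 0) :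
    ∃ S, T = PS a S := by
  classical
  haveI := charQB
  have hdeg : (hpol a QB).natDegree = 2 * g + 1 := by
    rw [pf_deg, Fintype.card_fin]
  obtain ⟨u, v, hu, huv, hug, hvu, hc⟩ := exists_reduced hdeg T.toMul
  have hT' : cl (mi (hpol a QB) u v) * cl (mi (hpol a QB) u v) = 1 := by
    rw [hc]
    exact congrArg Additive.toMul hT
  have huv' : u ∣ hpol a QB - (-v) ^ 2 := by rw [neg_sq]; exact huv
  have h1 : cl (mi (hpol a QB) u v) = cl (mi (hpol a QB) u (-v)) := by
    have h2 : cl (mi (hpol a QB) u v) * cl (mi (hpol a QB) u (-v)) = 1 := by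
      rw [← cl_mul (mi_ne hu.ne_zero) (mi_ne hu.ne_zero), mi_neg huv]
      exact cl_span (CC_ne hu.ne_zero)
    exact mul_left_cancel (hT'.trans h2.symm)
  obtain ⟨-, h3⟩ := reduced_unique hdeg hu hu huv huv' hug hug h1
  have h4 : u ∣ v := by
    have h6 : (⟨-v, 1⟩ : CR (hpol a QB)) ∈ mi (hpol a QB) u (-v) := by
      rw [← h3]; exact mi_y_mem _ _
    rw [mem_mi huv'] at h6
    obtain ⟨t, ht⟩ := two_unit (f := hpol a QB)
    have h7 := h6.mul_right (-t)
    convert h7 using 1
    simp only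
    linear_combination -v * ht
  have hv0 : v = 0 := by
    rw [← hvu]
    exact (modByMonic_eq_zero_iff_dvd hu).2 h4
  subst hv0
  have huf : u ∣ hpol a QB := by
    rwa [zero_pow two_ne_zero, sub_zero] at huv
  obtain ⟨S, hS⟩ : ∃ S : Finset (Fin (2 * g + 1)),
      S = Finset.univ.filter (fun i => u.eval ((a i : ℤ) : QB) = 0) := ⟨_, rfl⟩
  refine ⟨S, ?_⟩
  have hprod : u = ∏ m ∈ S, (X - C ((a m : ℤ) : QB)) := by
    have hinj : Function.Injective (fun i : Fin (2 * g + 1) => ((a i : ℤ) : QB)) :=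
      fun i j h => ha (Int.cast_injective (α := QB) h)
    have hroots : (hpol a QB).roots =
        (Finset.univ : Finset (Fin (2 * g + 1))).val.map (fun i => ((a i : ℤ) : QB)) := by
      have : hpol a QB = ((Finset.univ : Finset (Fin (2 * g + 1))).val.map
        (fun i => X - C ((a i : ℤ) : QB))).prod := rfl
      rw [this]
      have h5 : ((Finset.univ : Finset (Fin (2 * g + 1))).val.map
        (fun i => X - C ((a i : ℤ) : QB))) = (((Finset.univ : Finset (Fin (2 * g + 1))).val.map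
          (fun i => ((a i : ℤ) : QB))).map (fun x => X - C x)) := by
        rw [Multiset.map_map]
        rfl
      rw [h5, roots_multiset_prod_X_sub_C]
    have hnd : (hpol a QB).roots.Nodup := by
      rw [hroots]
      exact Finset.univ.nodup.map hinj
    have hle : u.roots ≤ (hpol a QB).roots :=
      roots.le_of_dvd (pf_oddM (by rw [Fintype.card_fin]; exact ⟨g, rfl⟩) _).monic.ne_zero huf
    have hund : u.roots.Nodup := Multiset.nodup_of_le hle hnd
    have hsplit : u = (u.roots.map (fun x => X - C x)).prod := by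
      have := (IsAlgClosed.splits u).eq_prod_roots_of_monic hu
      exact this
    have hur : u.roots = S.val.map (fun i => ((a i : ℤ) : QB)) := by
      rw [Multiset.Nodup.ext hund (S.nodup.map hinj)]
      intro x
      constructor
      · intro hx
        have h6 : x ∈ (hpol a QB).roots := Multiset.mem_of_le hle hx
        rw [hroots, Multiset.mem_map] at h6
        obtain ⟨i, -, rfl⟩ := h6
        rw [Multiset.mem_map]
        refine ⟨i, ?_, rfl⟩
        rw [Finset.mem_val, hS, Finset.mem_filter]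
        exact ⟨Finset.mem_univ i, (mem_roots hu.ne_zero).1 hx⟩
      · intro hx
        rw [Multiset.mem_map] at hx
        obtain ⟨i, hi, rfl⟩ := hx
        rw [Finset.mem_val, hS, Finset.mem_filter] at hi
        exact (mem_roots hu.ne_zero).2 hi.2
    rw [hsplit, hur, Multiset.map_map]
    rfl
  have h5 : T = Additive.ofMul (cl (mi (hpol a QB) u 0)) := by rw [hc]; rfl
  rw [h5, hprod, prod_cl]

end

/-- there are no rational points of order four -/
theorem no_four (hg : 1 ≤ g) {q : ℕ} (ha : Function.Injective a)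
    (hq : q.Prime) (hnd : ¬ q ∣ DA a) (R : JacQ (tw q a)) (h : (R + R) + (R + R) = 0) :
    R + R = 0 := by
  classical
  have hq0 : (q : ℤ) ≠ 0 := by exact_mod_cast hq.ne_zero
  have htw := tw_inj hq0 ha
  haveI : HF (hpol (tw q a) QB) := by
    haveI := charQB
    exact hpolHF htw _
  obtain ⟨S, hS⟩ := two_tor htw (R.1 + R.1) (congrArg Subtype.val h)
  obtain ⟨S', h0, hS'⟩ : ∃ S' : Finset (Fin (2 * g + 1)), (0 : Fin (2 * g + 1)) ∉ S' ∧
      R.1 + R.1 = PS (tw q a) S' := by
    by_cases h0 : (0 : Fin (2 * g + 1)) ∈ S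
    · exact ⟨Sᶜ, fun h => (Finset.mem_compl.1 h) h0, by rw [PS_compl hg]; exact hS⟩
    · exact ⟨S, h0, hS⟩
  have h1 : PS (tw q a) ∅ = 0 := by
    unfold PS
    exact Finset.sum_empty
  have h2 := ind_two hg ha hq hnd (S := S') (S' := ∅) h0 (Finset.notMem_empty _) R
    (by rw [h1, add_zero]; exact hS')
  apply Subtype.ext
  show R.1 + R.1 = 0
  rw [hS', h2, h1]

theorem fin_two (hg : 1 ≤ g) {q : ℕ} (ha : Function.Injective a)
    (hq : q.Prime) (hnd : ¬ q ∣ DA a) :
    {P : JacQ (tw q a) | ∃ m : ℕ, (2 ^ m : ℕ) • P = 0}.Finite := by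
  classical
  have hq0 : (q : ℤ) ≠ 0 := by exact_mod_cast hq.ne_zero
  have htw := tw_inj hq0 ha
  haveI : HF (hpol (tw q a) QB) := by
    haveI := charQB
    exact hpolHF htw _
  have key : ∀ (m : ℕ) (P : JacQ (tw q a)), (2 ^ m : ℕ) • P = 0 → P + P = 0 := by
    intro m
    induction m with
    | zero =>
      intro P h
      rw [pow_zero, one_smul] at h
      rw [h, add_zero]
    | succ m ih =>
      intro P h
      have h1 : (2 ^ m : ℕ) • (P + P) = 0 := by
        rw [← two_nsmul, smul_smul, ← pow_succ]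
        exact h
      exact no_four hg ha hq hnd P (ih _ h1)
  have hfin : (Set.range (fun S : Finset (Fin (2 * g + 1)) => PS (tw q a) S)).Finite :=
    Set.finite_range _
  refine Set.Finite.subset (hfin.preimage (Subtype.val_injective.injOn
    (s := (Subtype.val : JacQ (tw q a) → _) ⁻¹' _))) ?_
  rintro P ⟨m, hm⟩
  obtain ⟨S, hS⟩ := two_tor htw P.1 (congrArg Subtype.val (key m P hm))
  exact ⟨S, hS.symm⟩

/-- **the Selmer group of the twist is zero** -/
theorem h1f_of (hg : 1 ≤ g) {q : ℕ} (ha : Function.Injective a)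
    (hq : q.Prime) (hnd : ¬ q ∣ DA a) (hfin : (Pool.Agent.TH344.JG.SelJ (tw q a)).Finite)
    (hcard : (Pool.Agent.TH344.JG.SelJ (tw q a)).ncard ≤ 2 ^ (2 * g)) :
    ∀ x : H1f (tw q a) 2, x = 0 := by
  have hq0 : (q : ℤ) ≠ 0 := by exact_mod_cast hq.ne_zero
  have htw := tw_inj hq0 ha
  obtain ⟨f1, f2, f3⟩ := Pool.Agent.Y723.HJ.sha_sel htw hfin
  obtain ⟨g1, g2⟩ := quo_ge hg ha hq hnd f2
  have hpos : 0 < Nat.card (Pool.Agent.Y723.HJ.ShaTorsion (tw q a) 2) := by
    haveI : Nonempty (Pool.Agent.Y723.HJ.ShaTorsion (tw q a) 2) := ⟨⟨0, by simp⟩⟩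
    exact Nat.card_pos
  have hle := f3.trans hcard
  have e1 : Nat.card (Pool.Agent.Y723.HJ.QuotQ (tw q a) 2) ≤ 2 ^ (2 * g) := by
    calc Nat.card (Pool.Agent.Y723.HJ.QuotQ (tw q a) 2) ≤
        Nat.card (Pool.Agent.Y723.HJ.QuotQ (tw q a) 2) *
          Nat.card (Pool.Agent.Y723.HJ.ShaTorsion (tw q a) 2) :=
          Nat.le_mul_of_pos_right _ hpos
      _ ≤ _ := hle
  have hdiv := g2 e1
  have h1 : ∀ (t : ℕ) (P : JacQ (tw q a)), ∃ R : JacQ (tw q a), 2 • P = (2 ^ (t + 1)) • R := by
    intro t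
    induction t with
    | zero => exact fun P => ⟨P, by rw [zero_add, pow_one]⟩
    | succ t ih =>
      intro P
      obtain ⟨R, hR⟩ := hdiv P
      obtain ⟨R', hR'⟩ := ih R
      refine ⟨R', ?_⟩
      have e4 : 2 • P = 2 • (2 • R) := by
        rw [two_nsmul, two_nsmul, two_nsmul]
        exact hR
      rw [e4, hR', smul_smul]
      congr 1
      ring
  obtain ⟨E, hE⟩ : ∃ E : JacQ (tw q a) ≃+ Pool.Agent.Y723.SJ.JacQ (tw q a),
    E = Pool.Agent.Y723.SJ.eQ (tw q a) := ⟨_, rfl⟩
  refine h1f_zero (p := 2) ?_ ?_ ?_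
  · have hone : ∀ x : Pool.Agent.Y723.SJ.Sha (tw q a), 2 • x = 0 → x = 0 := by
      have h2 := (triv_of hg ha hq hnd hfin hcard 1 le_rfl).2
      rw [pow_one] at h2
      intro x hx
      have h3 := Nat.card_eq_one_iff_unique.1 h2
      have h4 : (⟨x, hx⟩ : Pool.Agent.Y723.SJ.ShaTorsion (tw q a) 2) = ⟨0, smul_zero _⟩ :=
        h3.1.elim _ _
      exact congrArg Subtype.val h4
    intro k
    induction k with
    | zero =>
      intro x hx
      rwa [pow_zero, one_smul] at hx
    | succ k ih =>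
      intro x hx
      apply ih
      apply hone
      rw [smul_smul, ← pow_succ']
      exact hx
  · intro K P
    obtain ⟨R, hR⟩ := h1 K (E.symm P)
    refine ⟨E R, ?_⟩
    rw [← map_nsmul, ← hR, map_nsmul, AddEquiv.apply_symm_apply]
  · refine ((fin_two hg ha hq hnd).image E).subset ?_
    rintro P ⟨m, hm⟩
    refine ⟨E.symm P, ⟨m, ?_⟩, AddEquiv.apply_symm_apply _ _⟩
    rw [← map_nsmul, hm, map_zero]

end Q274.BJ
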